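import Pool.Agent.N173.BG.Stm

/-!
BG/THM (helper933 for project MSB of helper173): the main theorem from its parts.
-/

set_option autoImplicit false

namespace Pool.Agent.N933.BG

open Finset Pool.Agent.TH858 Pool.Agent.TH858.GP Pool.Agent.N173.BG

theorem t_THM (h1 : S_POL) (h2 : S_BOG) (h3 : S_IND) (h4 : S_MAX) (h5 : S_CVX) : S_THM := by
  intro N _ X M H K hX hM hH hK
  have hNpos : (0 : ℝ) < N := by exact_mod_cast Nat.pos_of_ne_zero (NeZero.ne N)
  have hXpos : (0 : ℝ) < X.card := by exact_mod_cast hX.card_pos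
  have hXN : (X.card : ℝ) ≤ N := by
    have := Finset.card_le_univ X
    rw [ZMod.card] at this
    exact_mod_cast this
  have hM2 : 2 ≤ M := by
    by_contra hlt
    have hM1 : (M : ℝ) ≤ 1 := by
      have : M ≤ 1 := by omega
      exact_mod_cast this
    have h6 : Real.exp M ≤ Real.exp 1 := Real.exp_le_exp.2 hM1
    have h7 := Real.exp_one_lt_d9
    have h8 : Real.exp M * X.card ≤ Real.exp M * N :=
      mul_le_mul_of_nonneg_left hXN (Real.exp_pos _).le
    have h9 : Real.exp M * N ≤ 3 * N := mul_le_mul_of_nonneg_right (by linarith) hNpos.le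
    linarith
  have hH7 : 7 ≤ H := by omega
  have hMr : (2 : ℝ) ≤ M := by exact_mod_cast hM2
  have hHr : (7 : ℝ) ≤ H := by exact_mod_cast hH7
  have hJ1 : 1 ≤ 2 * M * H := by
    have : 0 < 2 * M * H := by positivity
    omega
  set θ : ℝ := 1 / (2 * (204 * (M : ℝ) ^ 2) ^ 2 * ((2 * M * H : ℕ) : ℝ) ^ 2) with hθ
  have hden : 2 * (204 * (M : ℝ) ^ 2) ^ 2 * ((2 * M * H : ℕ) : ℝ) ^ 2 =
      332928 * (M : ℝ) ^ 6 * H ^ 2 := by
    push_cast
    ring
  have hMH : 1 ≤ (M : ℝ) ^ 6 * H ^ 2 := by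
    have a1 : (1 : ℝ) ≤ (M : ℝ) ^ 6 := one_le_pow₀ (by linarith)
    have a2 : (1 : ℝ) ≤ (H : ℝ) ^ 2 := one_le_pow₀ (by linarith)
    nlinarith
  have hθ0 : 0 < θ := by
    rw [hθ, hden]
    positivity
  have hθ1 : θ ≤ 1 := by
    rw [hθ, hden, div_le_one (by positivity)]
    nlinarith
  obtain ⟨S, hS1, hS2⟩ := h1 N X M (2 * M * H) hX (by omega) hM hJ1
  have hSpos : (0 : ℝ) < S.card := by linarith
  have hSne : S.Nonempty := by
    rw [← Finset.card_pos]
    exact_mod_cast hSpos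
  obtain ⟨k, Λ, hΛ, hInd, hrel⟩ := h4 N (Sp X θ) H (by omega)
  have hIN := h3 N k H Λ S (by omega) hInd (fun x hx i => (hS2 x hx _ (hΛ i)).trans (by
    refine one_div_le_one_div_of_le (by positivity) ?_
    push_cast
    nlinarith))
  set D : ℝ := Real.log (4 * N / X.card) with hD
  have hDM : D ≤ M := by
    rw [hD, ← Real.log_exp (M : ℝ)]
    refine Real.log_le_log (by positivity) ?_
    rw [div_le_iff₀ hXpos]
    exact hM
  have hNS : (N : ℝ) / S.card ≤ 4 * N / X.card := by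
    rw [div_le_div_iff₀ hSpos hXpos]
    nlinarith
  have hl1 : 1 ≤ Real.log ((H : ℝ) / 2) := by
    rw [Real.le_log_iff_exp_le (by positivity)]
    have := Real.exp_one_lt_d9
    linarith
  have hkD : (k : ℝ) * Real.log ((H : ℝ) / 2) ≤ D := by
    rw [← Real.log_pow, hD]
    refine Real.log_le_log (by positivity) (le_trans ?_ hNS)
    rw [le_div_iff₀ hSpos]
    linarith
  have hkM : (k : ℝ) ≤ M := by
    have : (k : ℝ) * 1 ≤ k * Real.log ((H : ℝ) / 2) :=
      mul_le_mul_of_nonneg_left hl1 (Nat.cast_nonneg k)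
    linarith
  have hkM' : k ≤ M := by exact_mod_cast hkM
  obtain ⟨Γ, hΓ1, hΓ2⟩ := h5 N k H (2 * M * H) (Sp X θ) S Λ hSne (by omega)
    (Nat.mul_le_mul_right H (by omega)) hΛ hrel hS2
  refine ⟨Γ, ?_, ?_⟩
  · have a1 : (k : ℝ) ≤ D / Real.log ((H : ℝ) / 2) := by
      rw [le_div_iff₀ (by linarith)]
      exact hkD
    have a2 : Real.log ((N : ℝ) / S.card) / Real.log H ≤ D / Real.log H := by
      have a3 : 0 ≤ Real.log (H : ℝ) := Real.log_nonneg (by linarith)
      refine div_le_div_of_nonneg_right ?_ a3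
      exact Real.log_le_log (by positivity) hNS
    linarith
  · intro x hx
    have hKr : 333000 * (M : ℝ) ^ 7 * H ^ 2 ≤ K := by exact_mod_cast hK
    have a1 : (2 : ℝ) * ((M : ℝ) ^ 6 * H ^ 2) ≤ M ^ 7 * H ^ 2 := by
      calc (2 : ℝ) * ((M : ℝ) ^ 6 * H ^ 2) ≤ M * ((M : ℝ) ^ 6 * H ^ 2) :=
            mul_le_mul_of_nonneg_right hMr (by positivity)
        _ = _ := by ring
    have hK1 : 1 ≤ K := by
      have : (1 : ℝ) ≤ K := by nlinarith
      exact_mod_cast this
    refine h2 N X M K θ hX hK1 hθ0 hθ1 hM ?_ x fun g hg => hΓ2 x hx g hg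
    rw [hθ, hden, div_mul_eq_mul_div, one_mul, le_div_iff₀ (by positivity)]
    nlinarith

end Pool.Agent.N933.BG
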